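import Pool.Agent.Lib_helper65.RBO.Defs

/-! Block NUM of MP_247194_an, part (4) (helper35): orbits of `x ↦ (3 x ^ 2 - 1) / (2 x)`. -/

set_option autoImplicit false

namespace Pool.Agent.Lib_helper35.RBO

open Pool.Agent.Lib_helper65.RBO

theorem fS_eq {x : ℝ} (hx : 0 < x) : fS x = (3 * x - 1 / x) / 2 := by
  unfold fS
  field_simp

theorem fS_mono {x y : ℝ} (hx : 0 < x) (hxy : x ≤ y) : fS x ≤ fS y := by
  rw [fS_eq hx, fS_eq (hx.trans_le hxy)]
  have := one_div_le_one_div_of_le hx hxy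
  linarith

theorem le_fS {x : ℝ} (hx : 1 ≤ x) : x ≤ fS x := by
  have hx0 : 0 < x := by linarith
  rw [fS_eq hx0]
  have : 1 / x ≤ 1 := by rw [div_le_one hx0]; exact hx
  linarith

theorem fS_le {x : ℝ} (hx : 0 < x) : fS x ≤ 3 / 2 * x := by
  rw [fS_eq hx]
  have : 0 < 1 / x := by positivity
  linarith

theorem one_le_iter {x : ℝ} (hx : 1 ≤ x) (n : ℕ) : 1 ≤ fS^[n] x := by
  induction n with
  | zero => simpa using hx
  | succ n ih => rw [Function.iterate_succ_apply']; exact ih.trans (le_fS ih)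

theorem iter_mono {x y : ℝ} (hx : 1 ≤ x) (hxy : x ≤ y) (n : ℕ) : fS^[n] x ≤ fS^[n] y := by
  induction n with
  | zero => simpa using hxy
  | succ n ih =>
    rw [Function.iterate_succ_apply', Function.iterate_succ_apply']
    exact fS_mono (by linarith [one_le_iter hx n]) ih

/-- Backward orbits. -/
theorem exists_back (m : ℕ) : ∀ y : ℝ, 1 < y →
    ∃ x : ℝ, 1 < x ∧ x - 1 ≤ (2 / 3) ^ m * (y - 1) ∧ fS^[m] x = y := by
  induction m with
  | zero => intro y hy; exact ⟨y, hy, by simp, rfl⟩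
  | succ m ih =>
    intro y hy
    have hs0 : 0 ≤ √(y ^ 2 + 3) := Real.sqrt_nonneg _
    have hs : √(y ^ 2 + 3) ^ 2 = y ^ 2 + 3 := Real.sq_sqrt (by positivity)
    have hs1 : 2 < √(y ^ 2 + 3) := by
      rw [show (2 : ℝ) = √(2 ^ 2) by rw [Real.sqrt_sq]; norm_num]
      apply Real.sqrt_lt_sqrt (by norm_num)
      nlinarith
    have hs2 : √(y ^ 2 + 3) ≤ y + 1 := by
      rw [Real.sqrt_le_left (by linarith)]
      nlinarith
    obtain ⟨x, h1, h2, h3⟩ := ih ((y + √(y ^ 2 + 3)) / 3) (by linarith)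
    refine ⟨x, h1, ?_, ?_⟩
    · refine h2.trans ?_
      rw [pow_succ (2 / 3 : ℝ) m, mul_assoc]
      apply mul_le_mul_of_nonneg_left _ (by positivity)
      linarith
    · rw [Function.iterate_succ_apply', h3]
      unfold fS
      have hp : 0 < y + √(y ^ 2 + 3) := by linarith
      rw [div_eq_iff (by positivity)]
      nlinarith

/-- The comparison from above. -/
theorem iter_le {c : ℝ} (hc : 1 ≤ c) {x : ℝ} (hx : 1 ≤ x) (m : ℕ) :
    fS^[m] (1 + c * (x - 1)) ≤ 1 + c * (fS^[m] x - 1) := by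
  induction m with
  | zero => simp
  | succ m ih =>
    rw [Function.iterate_succ_apply', Function.iterate_succ_apply']
    set y := fS^[m] x with hy
    have hy1 : 1 ≤ y := one_le_iter hx m
    have h1 : 1 ≤ fS^[m] (1 + c * (x - 1)) := one_le_iter (by nlinarith) m
    refine (fS_mono (by linarith) ih).trans ?_
    have hp : 0 < 1 + c * (y - 1) := by nlinarith
    rw [fS_eq hp, fS_eq (by linarith)]
    have h2 : 1 - 1 / y = (y - 1) / y := by
      have : y ≠ 0 := by linarith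
      field_simp
    have h3 : 1 - 1 / (1 + c * (y - 1)) = c * (y - 1) / (1 + c * (y - 1)) := by
      field_simp
      ring
    have h5 : c * (y - 1) / (1 + c * (y - 1)) ≤ c * ((y - 1) / y) := by
      rw [← mul_div_assoc]
      apply div_le_div_of_nonneg_left (by nlinarith) (by linarith)
      nlinarith
    rw [← h2] at h5
    rw [← h3] at h5
    linarith

theorem fS_bounds {e : ℝ} (he : 0 ≤ e) :
    1 + (2 * e - e ^ 2 / 2) ≤ fS (1 + e) ∧ fS (1 + e) ≤ 1 + 2 * e := by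
  rw [fS_eq (by linarith)]
  have h1 : 1 / (1 + e) ≤ 1 - e + e ^ 2 := by
    rw [div_le_iff₀ (by linarith)]
    nlinarith [pow_nonneg he 3]
  have h2 : 1 - e ≤ 1 / (1 + e) := by
    rw [le_div_iff₀ (by linarith)]
    nlinarith [sq_nonneg e]
  constructor
  · linarith
  · linarith

/-- The comparison from below, one step. -/
theorem step_low {c : ℝ} (hc : 1 ≤ c) (hc2 : c ^ 2 = 2) {x : ℝ} (hx : 1 ≤ x) (hx2 : x ≤ 9 / 8) :
    1 + c * ((fS x - 1) * (1 - (fS x - 1))) ≤ fS (1 + c * ((x - 1) * (1 - (x - 1)))) := by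
  obtain ⟨e, rfl⟩ : ∃ e, x = 1 + e := ⟨x - 1, by ring⟩
  have he : 0 ≤ e := by linarith
  have he2 : e ≤ 1 / 8 := by linarith
  obtain ⟨h1, h2⟩ := fS_bounds he
  obtain ⟨r, hr⟩ : ∃ r, fS (1 + e) = 1 + r := ⟨fS (1 + e) - 1, by ring⟩
  rw [hr] at h1 h2 ⊢
  have h1' : 2 * e - e ^ 2 / 2 ≤ r := by linarith
  have h2' : r ≤ 2 * e := by linarith
  rw [show (1 : ℝ) + r - 1 = r by ring, show (1 : ℝ) + e - 1 = e by ring]
  have hg : 0 ≤ c * (e * (1 - e)) := mul_nonneg (by linarith) (mul_nonneg he (by linarith))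
  refine le_trans ?_ (fS_bounds hg).1
  have h3 : (c * (e * (1 - e))) ^ 2 = 2 * (e * (1 - e)) ^ 2 := by rw [mul_pow, hc2]
  rw [h3]
  have h4 : (e * (1 - e)) ^ 2 ≤ e ^ 2 := by
    apply pow_le_pow_left₀ (mul_nonneg he (by linarith))
    nlinarith
  have h5 : 0 ≤ 2 * e - e ^ 2 / 2 := by nlinarith
  have h6 : (2 * e - e ^ 2 / 2) ^ 2 ≤ r ^ 2 := pow_le_pow_left₀ h5 h1' 2
  have h7 : 15 / 4 * e ^ 2 ≤ (2 * e - e ^ 2 / 2) ^ 2 := by
    have : (2 * e - e ^ 2 / 2) ^ 2 - 15 / 4 * e ^ 2 = e ^ 2 * ((2 - e / 2) ^ 2 - 15 / 4) := by ring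
    have h8 : 0 ≤ (2 - e / 2) ^ 2 - 15 / 4 := by nlinarith
    nlinarith [mul_nonneg (sq_nonneg e) h8]
  have h9 : c * (r * (1 - r)) ≤ c * (2 * e - 15 / 4 * e ^ 2) := by
    apply mul_le_mul_of_nonneg_left _ (by linarith)
    nlinarith
  have h10 : e ^ 2 ≤ c * e ^ 2 := by nlinarith [sq_nonneg e]
  nlinarith

/-- The comparison from below. -/
theorem le_iter {c : ℝ} (hc : 1 ≤ c) (hc2 : c ^ 2 = 2) {x : ℝ} (hx : 1 ≤ x) (m : ℕ) :
    fS^[m] x ≤ 9 / 8 →
    1 + c * ((fS^[m] x - 1) * (1 - (fS^[m] x - 1))) ≤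
      fS^[m] (1 + c * ((x - 1) * (1 - (x - 1)))) := by
  induction m with
  | zero => intro _; simp
  | succ m ih =>
    rw [Function.iterate_succ_apply', Function.iterate_succ_apply']
    intro h
    have h1 := one_le_iter hx m
    have h2 := le_fS h1
    refine (step_low hc hc2 h1 (h2.trans h)).trans ?_
    have h3 := ih (h2.trans h)
    apply fS_mono _ h3
    have h4 : fS^[m] x ≤ 9 / 8 := h2.trans h
    have : 0 ≤ c * ((fS^[m] x - 1) * (1 - (fS^[m] x - 1))) :=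
      mul_nonneg (by linarith) (mul_nonneg (by linarith) (by linarith))
    linarith

/-! ### The numerical fact -/

/-- The scale. -/
def Q : ℕ := 2 ^ 140

/-- One step, rounded down. -/
def lo (X : ℕ) : ℕ := (3 * X - (Q ^ 2 / X + 1)) / 2

/-- One step, rounded up. -/
def up (X : ℕ) : ℕ := (3 * X - Q ^ 2 / X) / 2 + 1

theorem lo_le {X : ℕ} {x : ℝ} (hx : 1 ≤ x) (h : (X : ℝ) ≤ (Q : ℝ) * x) :
    (lo X : ℝ) ≤ (Q : ℝ) * fS x := by
  have hQ : (0 : ℝ) < Q := by unfold Q; positivity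
  have hx0 : 0 < x := by linarith
  have h0 : 0 ≤ (Q : ℝ) * fS x := mul_nonneg hQ.le (by linarith [le_fS hx])
  rcases Nat.eq_zero_or_pos X with rfl | hX
  · simpa [lo] using h0
  have hX' : (0 : ℝ) < X := by exact_mod_cast hX
  unfold lo
  rcases le_total (Q ^ 2 / X + 1) (3 * X) with hc | hc
  · have h1 : (((3 * X - (Q ^ 2 / X + 1)) / 2 : ℕ) : ℝ) ≤
        (3 * (X : ℝ) - ((Q ^ 2 / X : ℕ) + 1)) / 2 := by
      refine (Nat.cast_div_le).trans ?_
      rw [Nat.cast_sub hc]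
      push_cast
      exact le_refl _
    refine h1.trans ?_
    have h2 : (Q : ℝ) ^ 2 / X ≤ ((Q ^ 2 / X : ℕ) : ℝ) + 1 := by
      have := (Nat.lt_floor_add_one ((Q : ℝ) ^ 2 / X)).le
      rw [show ((Q : ℝ) ^ 2 / X) = (((Q ^ 2 : ℕ) : ℝ) / (X : ℝ)) by push_cast; ring] at this ⊢
      rwa [Nat.floor_div_eq_div] at this
    have h3 : fS ((X : ℝ) / Q) ≤ fS x := by
      apply fS_mono (by positivity)
      rw [div_le_iff₀ hQ]
      linarith
    have h4 : (Q : ℝ) * fS ((X : ℝ) / Q) = (3 * (X : ℝ) - (Q : ℝ) ^ 2 / X) / 2 := by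
      rw [fS_eq (by positivity)]
      field_simp
    have h5 := mul_le_mul_of_nonneg_left h3 hQ.le
    linarith
  · rw [Nat.sub_eq_zero_of_le hc]
    simpa using h0

theorem le_up {X : ℕ} {x : ℝ} (hx : 1 ≤ x) (h : (Q : ℝ) * x ≤ (X : ℝ)) :
    (Q : ℝ) * fS x ≤ (up X : ℝ) := by
  have hQ : (0 : ℝ) < Q := by unfold Q; positivity
  have hx0 : 0 < x := by linarith
  have hX' : (0 : ℝ) < X := lt_of_lt_of_le (by positivity) h
  have h3 : fS x ≤ fS ((X : ℝ) / Q) := by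
    apply fS_mono hx0
    rw [le_div_iff₀ hQ]
    linarith
  have h4 : (Q : ℝ) * fS ((X : ℝ) / Q) = (3 * (X : ℝ) - (Q : ℝ) ^ 2 / X) / 2 := by
    rw [fS_eq (by positivity)]
    field_simp
  have h5 := mul_le_mul_of_nonneg_left h3 hQ.le
  have h2 : ((Q ^ 2 / X : ℕ) : ℝ) ≤ (Q : ℝ) ^ 2 / X := by
    refine (Nat.cast_div_le).trans ?_
    push_cast
    exact le_refl _
  have h6 : (3 * (X : ℝ) - ((Q ^ 2 / X : ℕ) : ℝ)) ≤ ((3 * X - Q ^ 2 / X : ℕ) : ℝ) := by
    have : 3 * X ≤ (3 * X - Q ^ 2 / X) + Q ^ 2 / X := by omega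
    have h7 : ((3 * X : ℕ) : ℝ) ≤ (((3 * X - Q ^ 2 / X) + Q ^ 2 / X : ℕ) : ℝ) := by
      exact_mod_cast this
    push_cast at h7 ⊢
    linarith
  have h8 : ((3 * X - Q ^ 2 / X : ℕ) : ℝ) / 2 ≤ (((3 * X - Q ^ 2 / X) / 2 : ℕ) : ℝ) + 1 := by
    have := (Nat.lt_floor_add_one (((3 * X - Q ^ 2 / X : ℕ) : ℝ) / (2 : ℕ))).le
    rw [Nat.floor_div_eq_div] at this
    push_cast at this ⊢
    exact this
  unfold up
  push_cast at h8 ⊢
  linarith

theorem lo_iter {X : ℕ} {x : ℝ} (hx : 1 ≤ x) (h : (X : ℝ) ≤ (Q : ℝ) * x) (n : ℕ) :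
    ((lo^[n] X : ℕ) : ℝ) ≤ (Q : ℝ) * fS^[n] x := by
  induction n with
  | zero => simpa using h
  | succ n ih =>
    rw [Function.iterate_succ_apply', Function.iterate_succ_apply']
    exact lo_le (one_le_iter hx n) ih

theorem up_iter {X : ℕ} {x : ℝ} (hx : 1 ≤ x) (h : (Q : ℝ) * x ≤ (X : ℝ)) (n : ℕ) :
    (Q : ℝ) * fS^[n] x ≤ ((up^[n] X : ℕ) : ℝ) := by
  induction n with
  | zero => simpa using h
  | succ n ih =>
    rw [Function.iterate_succ_apply', Function.iterate_succ_apply']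
    exact le_up (one_le_iter hx n) ih

/-- The upper starting value `Q (1 + u + u ^ 2)`, `u = 2 ^ (-47)`. -/
def U0 : ℕ := 2 ^ 140 + 2 ^ 93 + 2 ^ 46

/-- The lower starting value. -/
def L0 : ℕ := 2 ^ 140 + 14005692743696435463250601341

theorem check : Q ≤ lo^[122] L0 ∧
    3 * (up^[122] U0 + Q) ^ 2 < 2 * (lo^[122] L0 - Q) ^ 2 := by
  decide +kernel

/-- The number `u`. -/
noncomputable def u : ℝ := 1 / 2 ^ 47

theorem numeric :
    3 * (fS^[122] (1 + u * (1 + u)) + 1) ^ 2 < 2 * (fS^[122] (1 + √2 * (u * (1 - u))) - 1) ^ 2 ∧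
    1 ≤ fS^[122] (1 + √2 * (u * (1 - u))) := by
  have hs0 : 0 ≤ √2 := Real.sqrt_nonneg _
  have hs : √2 ^ 2 = 2 := Real.sq_sqrt (by norm_num)
  have hQ : (0 : ℝ) < Q := by unfold Q; positivity
  have hu : 0 < u := by unfold u; positivity
  have hu1 : u < 1 := by unfold u; norm_num
  have hx : 1 ≤ 1 + √2 * (u * (1 - u)) := by
    have : 0 ≤ √2 * (u * (1 - u)) := mul_nonneg hs0 (mul_nonneg hu.le (by linarith))
    linarith
  have hy : 1 ≤ 1 + u * (1 + u) := by nlinarith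
  have hL0 : ((L0 : ℕ) : ℝ) ≤ (Q : ℝ) * (1 + √2 * (u * (1 - u))) := by
    have h1 : (14005692743696435463250601341 : ℝ) ≤ √2 * (2 ^ 93 - 2 ^ 46) := by
      rw [← sub_nonneg]
      by_contra hcon
      push Not at hcon
      have h2 : √2 * (2 ^ 93 - 2 ^ 46) < (14005692743696435463250601341 : ℝ) := by linarith
      have h3 : 0 ≤ √2 * ((2 : ℝ) ^ 93 - 2 ^ 46) := mul_nonneg hs0 (by norm_num)
      have h4 := mul_self_lt_mul_self h3 h2
      have h5 : √2 * ((2 : ℝ) ^ 93 - 2 ^ 46) * (√2 * (2 ^ 93 - 2 ^ 46)) =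
          √2 ^ 2 * (2 ^ 93 - 2 ^ 46) ^ 2 := by ring
      rw [h5, hs] at h4
      norm_num at h4
    have h2 : (Q : ℝ) * (1 + √2 * (u * (1 - u))) = 2 ^ 140 + √2 * (2 ^ 93 - 2 ^ 46) := by
      unfold Q u
      push_cast
      ring
    rw [h2]
    unfold L0
    push_cast
    linarith
  have hU0 : (Q : ℝ) * (1 + u * (1 + u)) ≤ ((U0 : ℕ) : ℝ) := by
    apply le_of_eq
    unfold Q u U0
    push_cast
    ring
  have hl := lo_iter hx hL0 122
  have hup := up_iter hy hU0 122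
  obtain ⟨c1, c2⟩ := check
  generalize lo^[122] L0 = l at hl c1 c2
  generalize up^[122] U0 = v at hup c2
  have c1' : (Q : ℝ) ≤ (l : ℝ) := by exact_mod_cast c1
  have c2' : 3 * ((v : ℝ) + Q) ^ 2 < 2 * ((l : ℝ) - Q) ^ 2 := by
    have h : ((3 * (v + Q) ^ 2 : ℕ) : ℝ) < ((2 * (l - Q) ^ 2 : ℕ) : ℝ) := by
      exact_mod_cast c2
    push_cast [Nat.cast_sub c1] at h
    exact h
  have h1 : 1 ≤ fS^[122] (1 + √2 * (u * (1 - u))) := one_le_iter hx 122
  refine ⟨?_, h1⟩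
  have hU1 : 1 ≤ fS^[122] (1 + u * (1 + u)) := one_le_iter hy 122
  set L := fS^[122] (1 + √2 * (u * (1 - u))) with hL
  set U := fS^[122] (1 + u * (1 + u)) with hU
  have h2 : ((Q : ℝ) * (U + 1)) ^ 2 ≤ ((v : ℝ) + Q) ^ 2 := by
    apply pow_le_pow_left₀ (mul_nonneg hQ.le (by linarith))
    linarith
  have h3 : ((l : ℝ) - Q) ^ 2 ≤ ((Q : ℝ) * (L - 1)) ^ 2 := by
    apply pow_le_pow_left₀ (by linarith)
    linarith
  have h4 : (Q : ℝ) ^ 2 * (3 * (U + 1) ^ 2) < (Q : ℝ) ^ 2 * (2 * (L - 1) ^ 2) := by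
    calc (Q : ℝ) ^ 2 * (3 * (U + 1) ^ 2) = 3 * ((Q : ℝ) * (U + 1)) ^ 2 := by ring
      _ ≤ 3 * ((v : ℝ) + Q) ^ 2 := by linarith
      _ < 2 * ((l : ℝ) - Q) ^ 2 := c2'
      _ ≤ 2 * ((Q : ℝ) * (L - 1)) ^ 2 := by linarith
      _ = (Q : ℝ) ^ 2 * (2 * (L - 1) ^ 2) := by ring
  exact lt_of_mul_lt_mul_left h4 (sq_nonneg _)

theorem numeric' : √(3 / 2) * (fS^[122] (1 + u * (1 + u)) + 1) <
    fS^[122] (1 + √2 * (u * (1 - u))) - 1 := by
  obtain ⟨h, h1⟩ := numeric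
  set L := fS^[122] (1 + √2 * (u * (1 - u))) with hL
  set U := fS^[122] (1 + u * (1 + u)) with hU
  have hs : √(3 / 2) ^ 2 = 3 / 2 := Real.sq_sqrt (by norm_num)
  by_contra hcon
  push Not at hcon
  have h2 := pow_le_pow_left₀ (by linarith) hcon 2
  rw [mul_pow, hs] at h2
  linarith

theorem num_osc (δ : ℝ) (hδ : 0 < δ) :
    (∃ e, 0 < e ∧ e < δ ∧ ∃ n : ℕ, √(3 / 2) * (fS^[n] (1 + e) + 1) < fS^[n] (1 + √2 * e) - 1) ∧
    (∃ e, 0 < e ∧ e < δ ∧ ∃ n : ℕ, fS^[n] (1 + √2 * e) + 1 < √(3 / 2) * (fS^[n] (1 + e) - 1)) := by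
  have hs0 : 0 ≤ √2 := Real.sqrt_nonneg _
  have hs : √2 ^ 2 = 2 := Real.sq_sqrt (by norm_num)
  have hs1 : 1 ≤ √2 := by
    rw [Real.one_le_sqrt]
    norm_num
  have hu : 0 < u := by unfold u; positivity
  have hu1 : u ≤ 1 / 8 := by unfold u; norm_num
  have hsmall : ∃ m : ℕ, (2 / 3 : ℝ) ^ m * (√2 * u) < δ := by
    obtain ⟨m, hm⟩ := exists_pow_lt_of_lt_one (show 0 < δ / (√2 * u) by positivity)
      (show (2 / 3 : ℝ) < 1 by norm_num)
    exact ⟨m, by rwa [lt_div_iff₀ (by positivity)] at hm⟩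
  obtain ⟨m, hm⟩ := hsmall
  have hnum := numeric'
  have hq : √(3 / 2) ^ 2 = 3 / 2 := Real.sq_sqrt (by norm_num)
  have hq0 : 0 < √(3 / 2) := Real.sqrt_pos.mpr (by norm_num)
  constructor
  · obtain ⟨x, hx1, hx2, hx3⟩ := exists_back m (1 + u) (by linarith)
    refine ⟨x - 1, by linarith, ?_, 122 + m, ?_⟩
    · refine lt_of_le_of_lt hx2 (lt_of_le_of_lt ?_ hm)
      apply mul_le_mul_of_nonneg_left _ (by positivity)
      nlinarith
    · rw [Function.iterate_add_apply, Function.iterate_add_apply]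
      rw [show (1 : ℝ) + (x - 1) = x by ring, hx3]
      have h1 : fS^[122] (1 + u) ≤ fS^[122] (1 + u * (1 + u)) := by
        apply iter_mono (by linarith)
        nlinarith
      have h2 := le_iter hs1 hs hx1.le m (by rw [hx3]; linarith)
      rw [hx3, show (1 : ℝ) + u - 1 = u by ring] at h2
      have h3 : 1 ≤ 1 + √2 * ((x - 1) * (1 - (x - 1))) := by
        have hx4 : x ≤ 1 + u := by
          have : (2 / 3 : ℝ) ^ m ≤ 1 := pow_le_one₀ (by norm_num) (by norm_num)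
          nlinarith
        have : 0 ≤ √2 * ((x - 1) * (1 - (x - 1))) :=
          mul_nonneg hs0 (mul_nonneg (by linarith) (by linarith))
        linarith
      have h4 : fS^[m] (1 + √2 * ((x - 1) * (1 - (x - 1)))) ≤ fS^[m] (1 + √2 * (x - 1)) := by
        apply iter_mono h3
        have : √2 * ((x - 1) * (1 - (x - 1))) ≤ √2 * (x - 1) := by
          apply mul_le_mul_of_nonneg_left _ hs0
          nlinarith
        linarith
      have h5 : fS^[122] (1 + √2 * (u * (1 - u))) ≤ fS^[122] (fS^[m] (1 + √2 * (x - 1))) := by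
        apply iter_mono _ (h2.trans h4)
        have : 0 ≤ √2 * (u * (1 - u)) := mul_nonneg hs0 (mul_nonneg hu.le (by linarith))
        linarith
      have h6 : √(3 / 2) * (fS^[122] (1 + u) + 1) ≤
          √(3 / 2) * (fS^[122] (1 + u * (1 + u)) + 1) := by
        apply mul_le_mul_of_nonneg_left _ hq0.le
        linarith
      linarith
  · obtain ⟨x, hx1, hx2, hx3⟩ := exists_back m (1 + √2 * u) (by nlinarith)
    refine ⟨x - 1, by linarith, ?_, 122 + m, ?_⟩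
    · refine lt_of_le_of_lt hx2 (lt_of_le_of_lt (le_of_eq ?_) hm)
      ring
    · rw [Function.iterate_add_apply, Function.iterate_add_apply]
      rw [show (1 : ℝ) + (x - 1) = x by ring, hx3]
      have h1 := iter_le hs1 hx1.le m
      rw [hx3] at h1
      have h1' : fS^[m] (1 + √2 * (x - 1)) ≤ 1 + 2 * u := by
        refine h1.trans (le_of_eq ?_)
        nlinarith
      have h2 : 1 + 2 * u ≤ fS (1 + u * (1 + u)) := by
        refine le_trans ?_ (fS_bounds (by nlinarith)).1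
        have h7 : (u * (1 + u)) ^ 2 ≤ 2 * u ^ 2 := by
          have : (1 + u) ^ 2 ≤ 2 := by nlinarith
          nlinarith [sq_nonneg u]
        nlinarith
      have h3 : fS^[122] (fS^[m] (1 + √2 * (x - 1))) ≤ 3 / 2 * fS^[122] (1 + u * (1 + u)) := by
        refine (iter_mono (one_le_iter (by nlinarith) m) (h1'.trans h2) 122).trans ?_
        rw [← Function.iterate_succ_apply, Function.iterate_succ_apply']
        apply fS_le
        linarith [one_le_iter (show 1 ≤ 1 + u * (1 + u) by nlinarith) 122]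
      have h4 : fS^[122] (1 + √2 * (u * (1 - u))) ≤ fS^[122] (1 + √2 * u) := by
        apply iter_mono
        · have : 0 ≤ √2 * (u * (1 - u)) := mul_nonneg hs0 (mul_nonneg hu.le (by linarith))
          linarith
        · have : √2 * (u * (1 - u)) ≤ √2 * u := by
            apply mul_le_mul_of_nonneg_left _ hs0
            nlinarith
          linarith
      have h5 : √(3 / 2) * (√(3 / 2) * (fS^[122] (1 + u * (1 + u)) + 1)) <
          √(3 / 2) * (fS^[122] (1 + √2 * u) - 1) := by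
        apply mul_lt_mul_of_pos_left _ hq0
        linarith
      have h6 : √(3 / 2) * (√(3 / 2) * (fS^[122] (1 + u * (1 + u)) + 1)) =
          3 / 2 * (fS^[122] (1 + u * (1 + u)) + 1) := by
        rw [← mul_assoc, ← pow_two, hq]
      linarith

end Pool.Agent.Lib_helper35.RBO
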