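import Pool.Agent.Lib_helper65.RBO.Defs5

/-! Block P3 of MP_247194_an, part (5) (helper35): uniform convergence of the complex recursion. -/

set_option autoImplicit false

namespace Pool.Agent.Lib_helper35.RBO

open Pool.Agent.Lib_helper65.RBO

/-- The quadratic form that is contracted by the linear part. -/
noncomputable def Qf (a b : ℂ) : ℝ := (3 * ‖b‖ ^ 2 + ‖a‖ ^ 2 + ‖a + b‖ ^ 2) / 4

theorem Qf_lin (a b : ℂ) : Qf b (-(a + b) / 2) = 1 / 2 * Qf a b := by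
  unfold Qf
  have h1 : ‖-(a + b) / 2‖ ^ 2 = ‖a + b‖ ^ 2 / 4 := by
    rw [norm_div, norm_neg, div_pow]
    norm_num
  have h2 : ‖b + -(a + b) / 2‖ ^ 2 = (2 * ‖a‖ ^ 2 + 2 * ‖b‖ ^ 2 - ‖a + b‖ ^ 2) / 4 := by
    have h3 : b + -(a + b) / 2 = (b - a) / 2 := by ring
    rw [h3, norm_div, div_pow]
    have h4 : ‖b - a‖ ^ 2 = 2 * ‖a‖ ^ 2 + 2 * ‖b‖ ^ 2 - ‖a + b‖ ^ 2 := by
      simp only [← Complex.normSq_eq_norm_sq, Complex.normSq_apply, Complex.sub_re, Complex.sub_im,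
        Complex.add_re, Complex.add_im]
      ring
    rw [h4]
    norm_num
  rw [h1, h2]
  ring

theorem sq_sub_le (x e : ℂ) : ‖x - e‖ ^ 2 ≤ 17 / 16 * ‖x‖ ^ 2 + 17 * ‖e‖ ^ 2 := by
  have h1 : ‖x - e‖ ≤ ‖x‖ + ‖e‖ := norm_sub_le x e
  have h2 : ‖x - e‖ ^ 2 ≤ (‖x‖ + ‖e‖) ^ 2 := pow_le_pow_left₀ (norm_nonneg _) h1 2
  nlinarith [sq_nonneg (‖x‖ - 16 * ‖e‖)]

theorem Qf_step (a b e : ℂ) : Qf b (-(a + b) / 2 - e) ≤ 17 / 32 * Qf a b + 17 * ‖e‖ ^ 2 := by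
  have h := Qf_lin a b
  have h1 := sq_sub_le (-(a + b) / 2) e
  have h2 := sq_sub_le (b + -(a + b) / 2) e
  have h3 : b + (-(a + b) / 2 - e) = b + -(a + b) / 2 - e := by ring
  unfold Qf at h ⊢
  rw [h3]
  have h4 := sq_nonneg ‖b‖
  nlinarith

theorem Qf_nonneg (a b : ℂ) : 0 ≤ Qf a b := by
  unfold Qf
  positivity

theorem norm_fst_le {a b : ℂ} {r : ℝ} (hr : 0 ≤ r) (h : Qf a b ≤ r ^ 2) : ‖a‖ ≤ 2 * r := by
  have h1 : ‖a‖ ^ 2 ≤ (2 * r) ^ 2 := by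
    unfold Qf at h
    nlinarith [sq_nonneg ‖b‖, sq_nonneg ‖a + b‖]
  exact le_of_sq_le_sq h1 (by positivity)

theorem norm_snd_le {a b : ℂ} {r : ℝ} (hr : 0 ≤ r) (h : Qf a b ≤ r ^ 2) : ‖b‖ ≤ 3 / 2 * r := by
  have h1 : ‖b‖ ^ 2 ≤ (3 / 2 * r) ^ 2 := by
    unfold Qf at h
    nlinarith [sq_nonneg ‖a‖, sq_nonneg ‖a + b‖, sq_nonneg ‖b‖]
  exact le_of_sq_le_sq h1 (by positivity)

theorem norm_add_sq_le {a b : ℂ} : ‖a + b‖ ^ 2 ≤ 4 * Qf a b := by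
  unfold Qf
  nlinarith [sq_nonneg ‖a‖, sq_nonneg ‖b‖]

/-- The error of the harmonic mean. -/
theorem cmean_eq (j : ℕ) {x y : ℂ} (h : x + y ≠ 0) : ∃ e : ℂ,
    cmean j x y = x + (-(x - y) / 2 - e) ∧ ‖e‖ ≤ ‖x - y‖ ^ 2 / (2 * ‖x + y‖) := by
  unfold cmean
  by_cases hj : Even j
  · refine ⟨0, ?_, ?_⟩
    · rw [if_pos hj]
      ring
    · rw [norm_zero]
      positivity
  · refine ⟨(x - y) ^ 2 / (2 * (x + y)), ?_, ?_⟩
    · rw [if_neg hj]
      field_simp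
      ring
    · rw [norm_div, norm_pow, norm_mul]
      norm_num

theorem cw_zero (s t : ℂ) : cw s t 0 = 1 := by rw [cw]

theorem cw_one (s t : ℂ) : cw s t 1 = 2 / (2 + s) := by rw [cw]

theorem cw_two (s t : ℂ) : cw s t 2 = (2 + t) / (2 + s) := by rw [cw]

theorem cw_step (s t : ℂ) (n : ℕ) :
    cw s t (n + 3) = cmean (n + 3) (cw s t (n + 2)) (cw s t n) := by rw [cw]

theorem base {s t : ℂ} (hs : ‖s‖ ≤ 1 / 128) (ht : ‖t‖ ≤ 1 / 128) :
    Qf (cw s t 1 - cw s t 0) (cw s t 2 - cw s t 1) ≤ (1 / 64) ^ 2 := by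
  have h2 : 1 ≤ ‖2 + s‖ := by
    have h3 : ‖(2 : ℂ)‖ ≤ ‖2 + s‖ + ‖s‖ := by
      have h4 : (2 : ℂ) = (2 + s) - s := by ring
      calc ‖(2 : ℂ)‖ = ‖(2 + s) - s‖ := by rw [← h4]
        _ ≤ _ := norm_sub_le _ _
    have h5 : ‖(2 : ℂ)‖ = 2 := by norm_num
    linarith
  have h2' : (2 : ℂ) + s ≠ 0 := by
    intro h
    rw [h, norm_zero] at h2
    linarith
  have e1 : cw s t 1 - cw s t 0 = -s / (2 + s) := by
    rw [cw_one, cw_zero]
    field_simp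
    ring
  have e2 : cw s t 2 - cw s t 1 = t / (2 + s) := by
    rw [cw_two, cw_one]
    field_simp
    ring
  have n1 : ‖cw s t 1 - cw s t 0‖ ≤ 1 / 128 := by
    rw [e1, norm_div, norm_neg]
    exact (div_le_self (norm_nonneg _) h2).trans hs
  have n2 : ‖cw s t 2 - cw s t 1‖ ≤ 1 / 128 := by
    rw [e2, norm_div]
    exact (div_le_self (norm_nonneg _) h2).trans ht
  have n3 : ‖(cw s t 1 - cw s t 0) + (cw s t 2 - cw s t 1)‖ ≤ 1 / 64 := by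
    refine (norm_add_le _ _).trans ?_
    linarith
  unfold Qf
  have m1 := pow_le_pow_left₀ (norm_nonneg _) n1 2
  have m2 := pow_le_pow_left₀ (norm_nonneg _) n2 2
  have m3 := pow_le_pow_left₀ (norm_nonneg _) n3 2
  norm_num at m1 m2 m3 ⊢
  linarith

theorem main {s t : ℂ} (hs : ‖s‖ ≤ 1 / 128) (ht : ‖t‖ ≤ 1 / 128) (n : ℕ) :
    Qf (cw s t (n + 1) - cw s t n) (cw s t (n + 2) - cw s t (n + 1)) ≤ (1 / 64 * (3 / 4) ^ n) ^ 2 ∧
    ‖cw s t n - 1‖ ≤ 1 / 8 * (1 - (3 / 4) ^ n) := by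
  induction n with
  | zero =>
    refine ⟨?_, ?_⟩
    · have := base hs ht
      simpa using this
    · rw [cw_zero]
      simp
  | succ n ih =>
    obtain ⟨hQ, hw⟩ := ih
    set a := cw s t (n + 1) - cw s t n with ha
    set b := cw s t (n + 2) - cw s t (n + 1) with hb
    have hr : (0 : ℝ) < (3 / 4) ^ n := by positivity
    have hr1 : ((3 : ℝ) / 4) ^ n ≤ 1 := pow_le_one₀ (by norm_num) (by norm_num)
    have na : ‖a‖ ≤ 1 / 32 * (3 / 4) ^ n := by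
      refine (norm_fst_le (by positivity) hQ).trans (le_of_eq ?_)
      ring
    have nb : ‖b‖ ≤ 3 / 128 * (3 / 4) ^ n := by
      refine (norm_snd_le (by positivity) hQ).trans (le_of_eq ?_)
      ring
    have hw1 : ‖cw s t (n + 1) - 1‖ ≤ 1 / 8 * (1 - (3 / 4) ^ (n + 1)) := by
      have h : cw s t (n + 1) - 1 = a + (cw s t n - 1) := by rw [ha]; ring
      rw [h]
      refine (norm_add_le _ _).trans ?_
      rw [pow_succ]
      linarith
    have hw2 : ‖cw s t (n + 2) - 1‖ ≤ 1 / 8 := by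
      have h : cw s t (n + 2) - 1 = b + (cw s t (n + 1) - 1) := by rw [hb]; ring
      rw [h]
      refine (norm_add_le _ _).trans ?_
      rw [pow_succ] at hw1
      linarith
    refine ⟨?_, hw1⟩
    -- the new difference
    have hsum : 3 / 2 ≤ ‖cw s t (n + 2) + cw s t n‖ := by
      have h : (2 : ℂ) = (cw s t (n + 2) + cw s t n) -
          ((cw s t (n + 2) - 1) + (cw s t n - 1)) := by ring
      have h5 : ‖(2 : ℂ)‖ = 2 := by norm_num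
      have h6 : ‖(2 : ℂ)‖ ≤ ‖cw s t (n + 2) + cw s t n‖ +
          ‖(cw s t (n + 2) - 1) + (cw s t n - 1)‖ := by
        calc ‖(2 : ℂ)‖ = ‖(cw s t (n + 2) + cw s t n) -
              ((cw s t (n + 2) - 1) + (cw s t n - 1))‖ := by rw [← h]
          _ ≤ _ := norm_sub_le _ _
      have h7 := norm_add_le (cw s t (n + 2) - 1) (cw s t n - 1)
      linarith
    have hne : cw s t (n + 2) + cw s t n ≠ 0 := by
      intro h
      rw [h, norm_zero] at hsum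
      linarith
    obtain ⟨e, he, hen⟩ := cmean_eq (n + 3) hne
    have hab : cw s t (n + 2) - cw s t n = a + b := by rw [ha, hb]; ring
    have hd : cw s t (n + 1 + 2) - cw s t (n + 1 + 1) = -(a + b) / 2 - e := by
      have h1 : cw s t (n + 1 + 2) = cw s t (n + 3) := rfl
      have h2 : cw s t (n + 1 + 1) = cw s t (n + 2) := rfl
      rw [h1, h2, cw_step, he, hab]
      ring
    rw [hd]
    rw [hab] at hen
    have hen2 : ‖e‖ ≤ 4 / 3 * Qf a b := by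
      refine hen.trans ?_
      rw [div_le_iff₀ (by linarith)]
      have h1 := norm_add_sq_le (a := a) (b := b)
      have h2 := Qf_nonneg a b
      nlinarith
    have hQ0 := Qf_nonneg a b
    have hQ1 : Qf a b ≤ 1 / 4096 := by
      refine hQ.trans ?_
      have h1 : (1 / 64 * (3 / 4 : ℝ) ^ n) ^ 2 ≤ (1 / 64 * 1) ^ 2 := by gcongr
      refine h1.trans (by norm_num)
    have he2 : ‖e‖ ^ 2 ≤ 16 / 9 * Qf a b * (1 / 4096) := by
      have h1 := pow_le_pow_left₀ (norm_nonneg _) hen2 2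
      nlinarith
    have hfin := Qf_step a b e
    have h9 : (1 / 64 * (3 / 4 : ℝ) ^ (n + 1)) ^ 2 = 9 / 16 * (1 / 64 * (3 / 4) ^ n) ^ 2 := by
      rw [pow_succ]
      ring
    rw [h9]
    nlinarith

theorem cw_conv : ∃ R C ρ : ℝ, 0 < R ∧ R ≤ 1 / 2 ∧ 0 < C ∧ 0 < ρ ∧ ρ < 1 ∧
    ∀ s t : ℂ, ‖s‖ ≤ R → ‖t‖ ≤ R → ∀ n : ℕ,
      ‖cw s t n - 1‖ ≤ 1 / 4 ∧ ‖cw s t (n + 1) - cw s t n‖ ≤ C * ρ ^ n := by
  refine ⟨1 / 128, 1 / 32, 3 / 4, by norm_num, by norm_num, by norm_num, by norm_num, by norm_num,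
    fun s t hs ht n => ?_⟩
  obtain ⟨hQ, hw⟩ := main hs ht n
  have hr : (0 : ℝ) < (3 / 4) ^ n := by positivity
  refine ⟨?_, ?_⟩
  · linarith
  · refine (norm_fst_le (by positivity) hQ).trans (le_of_eq ?_)
    ring

end Pool.Agent.Lib_helper35.RBO
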